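import Mathlib
import Pool.Agent.H892.KT.Stm

/-! # KT-RED1: representatives -/

set_option autoImplicit false

open Filter Topology Set

namespace Pool.Agent.H874.KT

open Pool.Agent.H892.KT

theorem red_orb {n : ℕ} (K : KatoData n) (V : ZMod n → Set (ℂ × ℂ)) (δ : ℝ)
    (hball : ∀ i, Metric.ball 0 δ ⊆ V i) (k : ℕ) : ∀ (i : ZMod n) (y : ℂ × ℂ), y ∈ K.U i → y ≠ 0 →
    ‖orb K.σ k i y‖ < δ → ∃ r' ∈ dom2 V, Relation.EqvGen K.Glue (Pt.P i y) r' := by
  induction k with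
  | zero =>
    intro i y hy hy0 hδ
    refine ⟨Pt.P i y, ⟨hball i ?_, hy0⟩, Relation.EqvGen.refl _⟩
    rw [mem_ball_zero_iff]
    exact hδ
  | succ k ih =>
    intro i y hy hy0 hδ
    by_cases hb : (K.σ i y).2 ≠ 0
    · have h1 : bA (K.σ i y) ≠ 0 := by
        intro h
        exact hb (congrArg Prod.snd h)
      obtain ⟨r', hr', h2⟩ := ih (i + 1) (bA (K.σ i y)) (K.maps i y hy) h1 hδ
      exact ⟨r', hr', Relation.EqvGen.trans _ _ _
        (Relation.EqvGen.rel _ _ (KatoData.Glue.shift i y hy hb)) h2⟩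
    · rw [not_not] at hb
      have ha : (K.σ i y).1 ≠ 0 := by
        intro ha
        apply hy0
        refine K.inj i hy (K.zero_mem i) ?_
        rw [K.map_zero]
        exact Prod.ext ha hb
      refine ⟨Pt.R (i + 1) (bK (K.σ i y)), ?_,
        Relation.EqvGen.rel _ _ (KatoData.Glue.exc i y hy ha)⟩
      change (K.σ i y).1 * (K.σ i y).2 = 0
      rw [hb, mul_zero]

theorem red_P {n : ℕ} (K : KatoData n) (V : ZMod n → Set (ℂ × ℂ)) (δ : ℝ) (hδ : 0 < δ)
    (hball : ∀ i, Metric.ball 0 δ ⊆ V i) (i : ZMod n) (y : ℂ × ℂ) (hy : y ∈ K.U i) (hy0 : y ≠ 0) :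
    ∃ r' ∈ dom2 V, Relation.EqvGen K.Glue (Pt.P i y) r' := by
  have h1 := (K.contr i y hy).eventually (Metric.ball_mem_nhds (0 : ℂ × ℂ) hδ)
  obtain ⟨k, hk⟩ := h1.exists
  rw [dist_zero_right] at hk
  exact red_orb K V δ hball k i y hy hy0 hk

theorem t_RED1 : S_RED1 := by
  intro n K V δ hδ hball _ r hr
  cases r with
  | P i y => exact red_P K V δ hδ hball i y hr.1 hr.2
  | R i z =>
    by_cases hz : z.1 = 0
    · exact ⟨Pt.R i z, hz, Relation.EqvGen.refl _⟩
    · have h0 : bB z ≠ 0 := by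
        intro h
        exact hz (congrArg Prod.fst h)
      obtain ⟨r', hr', h2⟩ := red_P K V δ hδ hball i (bB z) hr h0
      exact ⟨r', hr', Relation.EqvGen.trans _ _ _
        (Relation.EqvGen.rel _ _ (KatoData.Glue.blow i z hz hr)) h2⟩

end Pool.Agent.H874.KT
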